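import Pool.Agent.K7.H25.SB.Stm

/-!
# MP_8790b5_co: job SINGLE (helper94)
-/

set_option autoImplicit false

open scoped MeasureTheory ENNReal Topology InnerProductSpace
open MeasureTheory Set Filter Metric

namespace Pool.Agent.K7.H94.SB

open Pool.Agent.R154.Steiner Pool.Agent.K7.H25.SB

lemma lip_level (q u : Pl) (hu : ‖u‖ = 1) : LipschitzWith 1 (fun x : Pl => ⟪q - x, u⟫_ℝ) := by
  refine LipschitzWith.of_dist_le_mul fun x y => ?_
  rw [Real.dist_eq, NNReal.coe_one, one_mul, ← inner_sub_left]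
  have h : q - x - (q - y) = y - x := by abel
  rw [h]
  refine (abs_real_inner_le_norm _ _).trans ?_
  rw [hu, mul_one, dist_comm, dist_eq_norm]

lemma plane_decomp (u w : Pl) (hu : ‖u‖ = 1) (hw : ‖w‖ = 1) (huw : ⟪u, w⟫_ℝ = 0) (x : Pl) :
    x = ⟪x, u⟫_ℝ • u + ⟪x, w⟫_ℝ • w := by
  have hon : Orthonormal ℝ ![u, w] := by
    rw [orthonormal_iff_ite]
    intro i j
    fin_cases i <;> fin_cases j <;> simp [real_inner_self_eq_norm_sq, hu, hw, huw]
    rw [real_inner_comm]; exact huw
  have hcard : Fintype.card (Fin 2) = Module.finrank ℝ Pl := by simp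
  let b0 : Module.Basis (Fin 2) ℝ Pl := basisOfOrthonormalOfCardEqFinrank hon hcard
  have hb0 : ⇑b0 = ![u, w] := coe_basisOfOrthonormalOfCardEqFinrank hon hcard
  let b : OrthonormalBasis (Fin 2) ℝ Pl := b0.toOrthonormalBasis (by rw [hb0]; exact hon)
  have hb : ⇑b = ![u, w] := by
    rw [Module.Basis.coe_toOrthonormalBasis, hb0]
  have h := b.sum_repr' x
  rw [Fin.sum_univ_two, hb] at h
  simp only [Matrix.cons_val_zero, Matrix.cons_val_one] at h
  rw [real_inner_comm u x, real_inner_comm w x]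
  exact h.symm

theorem stSingle (h1 : StTwo) (h2 : StSurg) : StSingle := by
  intro A T q u w δ r a b hT hu hw huw hr hra hab hb hrb hA hnear hlow hfar
  obtain ⟨hTcl, hTcon, hAT, hTfin, hTmin⟩ := hT
  set l : Pl → ℝ := fun x => ⟪q - x, u⟫_ℝ with hl
  have hlip : LipschitzWith 1 l := lip_level q u hu
  have hlc : Continuous l := hlip.continuous
  have hdc : Continuous (fun x : Pl => dist x q) := continuous_id.dist continuous_const
  have huu : ⟪u, u⟫_ℝ = 1 := by rw [real_inner_self_eq_norm_sq, hu]; norm_num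
  have hww : ⟪w, w⟫_ℝ = 1 := by rw [real_inner_self_eq_norm_sq, hw]; norm_num
  have hwu : ⟪w, u⟫_ℝ = 0 := by rw [real_inner_comm]; exact huw
  -- the sphere
  have F1 : ∀ x ∈ T, dist x q = δ → b < l x := by
    intro x hx hxq
    obtain ⟨σ, hσ, hd⟩ := hnear x hx hxq.le
    have e1 : dist q (q - σ • u) = σ := by
      rw [dist_eq_norm]
      have : q - (q - σ • u) = σ • u := by abel
      rw [this, norm_smul, hu, mul_one, Real.norm_eq_abs, abs_of_nonneg hσ.1]
    have e2 : dist x q ≤ dist x (q - σ • u) + dist (q - σ • u) q := dist_triangle _ _ _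
    rw [dist_comm (q - σ • u) q, e1, hxq] at e2
    have e3 : l x = σ - ⟪x - (q - σ • u), u⟫_ℝ := by
      have : q - x = σ • u - (x - (q - σ • u)) := by abel
      simp only [hl]
      rw [this, inner_sub_left, real_inner_smul_left, huu, mul_one]
    have e4 : ⟪x - (q - σ • u), u⟫_ℝ ≤ r := by
      refine (real_inner_le_norm _ _).trans ?_
      rw [hu, mul_one, ← dist_eq_norm]; exact hd
    linarith
  -- near the line
  have F2 : ∀ x ∈ T, dist x q ≤ δ → ∃ s, |s| ≤ r ∧ x = q - l x • u + s • w := by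
    intro x hx hxq
    obtain ⟨σ, hσ, hd⟩ := hnear x hx hxq
    refine ⟨⟪x - q, w⟫_ℝ, ?_, ?_⟩
    · have : ⟪x - q, w⟫_ℝ = ⟪x - (q - σ • u), w⟫_ℝ := by
        have e : x - (q - σ • u) = (x - q) + σ • u := by abel
        rw [e, inner_add_left, real_inner_smul_left, huw, mul_zero, add_zero]
      rw [this]
      refine (abs_real_inner_le_norm _ _).trans ?_
      rw [hw, mul_one, ← dist_eq_norm]; exact hd
    · have h := plane_decomp u w hu hw huw (x - q)
      have e : ⟪x - q, u⟫_ℝ = - l x := by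
        simp only [hl]
        rw [← inner_neg_left, neg_sub]
      rw [e] at h
      have : x = q + (x - q) := by abel
      rw [this]
      nth_rewrite 1 [h]
      rw [neg_smul]
      simp only [hl]
      have e' : q - (q + (x - q)) = q - x := by abel
      rw [e', add_sub_cancel_left]
      abel
  -- levels are hit
  have F3 : ∀ τ ∈ Icc a b, ∃ x ∈ T, dist x q ≤ δ ∧ l x = τ := by
    intro τ hτ
    by_contra hcon
    push Not at hcon
    have hU1 : IsOpen {x : Pl | dist x q < δ ∧ l x < τ} :=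
      (isOpen_lt hdc continuous_const).inter (isOpen_lt hlc continuous_const)
    have hU2 : IsOpen {x : Pl | δ < dist x q ∨ τ < l x} :=
      (isOpen_lt continuous_const hdc).union (isOpen_lt continuous_const hlc)
    have hsub : T ⊆ {x : Pl | dist x q < δ ∧ l x < τ} ∪ {x : Pl | δ < dist x q ∨ τ < l x} := by
      intro x hx
      by_cases h : δ < dist x q
      · exact Or.inr (Or.inl h)
      push Not at h
      rcases lt_trichotomy (l x) τ with h' | h' | h'
      · refine Or.inl ⟨lt_of_le_of_ne h fun he => ?_, h'⟩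
        have := F1 x hx he
        linarith [hτ.2]
      · exact absurd h' (hcon x hx h)
      · exact Or.inr (Or.inr h')
    obtain ⟨x1, hx1, hx1', hx1''⟩ := hlow
    obtain ⟨x2, hx2, hx2'⟩ := hfar
    obtain ⟨x, hx, hx', hx''⟩ := hTcon.isPreconnected _ _ hU1 hU2 hsub
      ⟨x1, hx1, hx1', lt_of_lt_of_le hx1'' hτ.1⟩ ⟨x2, hx2, Or.inl hx2'⟩
    rcases hx'' with h | h
    · exact absurd hx'.1 (not_lt.mpr h.le)
    · exact absurd hx'.2 (not_lt.mpr h.le)
  set V : Set Pl := {x | dist x q < δ ∧ a < l x ∧ l x < b} with hV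
  set F : Set Pl := {x | dist x q ≤ δ ∧ a ≤ l x ∧ l x ≤ b} with hF
  have hVo : IsOpen V :=
    (isOpen_lt hdc continuous_const).inter
      ((isOpen_lt continuous_const hlc).inter (isOpen_lt hlc continuous_const))
  have hFc : IsClosed F :=
    (isClosed_le hdc continuous_const).inter
      ((isClosed_le continuous_const hlc).inter (isClosed_le hlc continuous_const))
  have hVF : V ⊆ F := fun x hx => ⟨hx.1.le, hx.2.1.le, hx.2.2.le⟩
  set K1 : Set Pl := segment ℝ (q - a • u - r • w) (q - a • u + r • w) with hK1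
  set K2 : Set Pl := segment ℝ (q - b • u - r • w) (q - b • u + r • w) with hK2
  set K3 : Set Pl := segment ℝ (q - b • u) (q - a • u) with hK3
  set K : Set Pl := (K1 ∪ K3) ∪ K2 with hK
  have hsegc : ∀ x y : Pl, IsClosed (segment ℝ x y) := by
    intro x y
    rw [segment_eq_image_lineMap]
    exact (isCompact_Icc.image AffineMap.lineMap_continuous).isClosed
  have hKcl : IsClosed K := ((hsegc _ _).union (hsegc _ _)).union (hsegc _ _)
  have hmid : ∀ p : Pl, ∀ s : ℝ, |s| ≤ r → p + s • w ∈ segment ℝ (p - r • w) (p + r • w) := by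
    intro p s hs
    rw [abs_le] at hs
    rw [segment_eq_image_lineMap]
    refine ⟨(s + r) / (2 * r), ⟨div_nonneg (by linarith) (by linarith),
      (div_le_one (by linarith)).mpr (by linarith)⟩, ?_⟩
    rw [AffineMap.lineMap_apply]
    simp only [vsub_eq_sub, vadd_eq_add]
    have e : p + r • w - (p - r • w) = (2 * r) • w := by
      rw [two_mul, add_smul]; abel
    rw [e, smul_smul, div_mul_cancel₀ _ (by linarith : 2 * r ≠ 0), add_smul]
    abel
  have hmid0 : ∀ p : Pl, p ∈ segment ℝ (p - r • w) (p + r • w) := by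
    intro p
    have := hmid p 0 (by simpa using hr.le)
    simpa using this
  have hKpre : IsPreconnected K := by
    have c1 : IsPreconnected (K1 ∪ K3) :=
      IsPreconnected.union (q - a • u) (hmid0 _) (right_mem_segment ℝ _ _)
        (convex_segment _ _).isPreconnected (convex_segment _ _).isPreconnected
    exact IsPreconnected.union (q - b • u) (Or.inr (left_mem_segment ℝ _ _)) (hmid0 _)
      c1 (convex_segment _ _).isPreconnected
  have hKne : K.Nonempty := ⟨q - a • u, Or.inl (Or.inl (hmid0 _))⟩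
  have hTK : T ∩ (F \ V) ⊆ K := by
    rintro x ⟨hx, hxF, hxV⟩
    obtain ⟨s, hs, hxs⟩ := F2 x hx hxF.1
    have hlt : dist x q < δ := by
      refine lt_of_le_of_ne hxF.1 fun he => ?_
      have := F1 x hx he
      linarith [hxF.2.2]
    have hab' : l x = a ∨ l x = b := by
      by_contra hcon
      push Not at hcon
      exact hxV ⟨hlt, lt_of_le_of_ne hxF.2.1 (Ne.symm hcon.1), lt_of_le_of_ne hxF.2.2 hcon.2⟩
    rcases hab' with h | h
    · rw [h] at hxs
      left; left
      rw [hxs]
      exact hmid _ s hs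
    · rw [h] at hxs
      right
      rw [hxs]
      exact hmid _ s hs
  have hTF : (T ∩ F).Nonempty := by
    obtain ⟨x, hx, hxq, hxl⟩ := F3 a ⟨le_rfl, hab.le⟩
    exact ⟨x, hx, hxq, hxl.ge, by rw [hxl]; exact hab.le⟩
  have hpre : IsPreconnected ((T \ V) ∪ K) :=
    h2 T K V F hTcl hTcon.isPreconnected hVo hFc hVF hKcl hKpre hKne hTK hTF
  have hcl : IsClosed ((T \ V) ∪ K) := (hTcl.sdiff hVo).union hKcl
  have hcon : IsConnected ((T \ V) ∪ K) := ⟨hKne.mono subset_union_right, hpre⟩
  have hAsub : A ⊆ (T \ V) ∪ K := by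
    intro x hx
    refine Or.inl ⟨hAT hx, fun hxV => ?_⟩
    have := hA x hx hxV.1.le
    exact absurd hxV.2.1 (not_lt.mpr this.le)
  have hmin := hTmin _ hcl hcon hAsub
  have hKlen : μH[1] K ≤ ENNReal.ofReal (4 * r + (b - a)) := by
    have e1 : μH[1] K1 = ENNReal.ofReal (2 * r) := by
      rw [hK1, hausdorffMeasure_segment, edist_dist, dist_eq_norm]
      have : q - a • u - r • w - (q - a • u + r • w) = (-(2 * r)) • w := by
        rw [neg_smul, two_mul, add_smul]; abel
      rw [this, norm_smul, hw, mul_one, norm_neg, Real.norm_eq_abs, abs_of_pos (by linarith)]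
    have e2 : μH[1] K2 = ENNReal.ofReal (2 * r) := by
      rw [hK2, hausdorffMeasure_segment, edist_dist, dist_eq_norm]
      have : q - b • u - r • w - (q - b • u + r • w) = (-(2 * r)) • w := by
        rw [neg_smul, two_mul, add_smul]; abel
      rw [this, norm_smul, hw, mul_one, norm_neg, Real.norm_eq_abs, abs_of_pos (by linarith)]
    have e3 : μH[1] K3 = ENNReal.ofReal (b - a) := by
      rw [hK3, hausdorffMeasure_segment, edist_dist, dist_eq_norm]
      have : q - b • u - (q - a • u) = (-(b - a)) • u := by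
        rw [neg_smul, sub_smul]; abel
      rw [this, norm_smul, hu, mul_one, norm_neg, Real.norm_eq_abs, abs_of_pos (by linarith)]
    calc μH[1] K ≤ μH[1] (K1 ∪ K3) + μH[1] K2 := measure_union_le _ _
      _ ≤ (μH[1] K1 + μH[1] K3) + μH[1] K2 := by gcongr; exact measure_union_le _ _
      _ = ENNReal.ofReal (4 * r + (b - a)) := by
        rw [e1, e2, e3, ← ENNReal.ofReal_add (by linarith) (by linarith),
          ← ENNReal.ofReal_add (by linarith) (by linarith)]
        congr 1; ring
  have hTV : μH[1] (T ∩ V) ≤ ENNReal.ofReal (4 * r + (b - a)) := by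
    have hsplit : μH[1] (T ∩ V) + μH[1] (T \ V) = μH[1] T :=
      measure_inter_add_diff T hVo.measurableSet
    have hle : μH[1] (T ∩ V) + μH[1] (T \ V) ≤ μH[1] K + μH[1] (T \ V) := by
      rw [hsplit]
      refine hmin.trans ((measure_union_le _ _).trans ?_)
      rw [add_comm]
    have hf : μH[1] (T \ V) ≠ ⊤ := ne_top_of_le_ne_top hTfin.ne (measure_mono diff_subset)
    exact ((ENNReal.add_le_add_iff_right hf).mp hle).trans hKlen
  by_contra hno
  push Not at hno
  have htwo := h1 (T ∩ closedBall q δ) l a b ((isCompact_closedBall q δ).inter_left hTcl) hlip (by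
    intro τ hτ
    obtain ⟨x, hx, hxq, hxl⟩ := F3 τ ⟨hτ.1.le, hτ.2.le⟩
    have hne := hno τ hτ x
    have : ∃ y ∈ T, dist y q ≤ δ ∧ l y = τ ∧ x ≠ y := by
      by_contra hcon'
      push Not at hcon'
      apply hne
      ext y
      simp only [mem_inter_iff, mem_setOf_eq, mem_singleton_iff]
      constructor
      · rintro ⟨hy, hyq, hyl⟩
        exact (hcon' y hy hyq hyl).symm
      · rintro rfl
        exact ⟨hx, hxq, hxl⟩
    obtain ⟨y, hy, hyq, hyl, hxy⟩ := this
    exact ⟨x, ⟨hx, hxq⟩, y, ⟨hy, hyq⟩, hxy, hxl, hyl⟩)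
  have hsub : T ∩ closedBall q δ ∩ l ⁻¹' Ioo a b ⊆ T ∩ V := by
    rintro x ⟨⟨hx, hxq⟩, hxl⟩
    refine ⟨hx, lt_of_le_of_ne hxq fun he => ?_, hxl.1, hxl.2⟩
    have := F1 x hx he
    linarith [hxl.2]
  have hfinal := (htwo.trans (measure_mono hsub)).trans hTV
  rw [ENNReal.ofReal_le_ofReal_iff (by linarith)] at hfinal
  linarith

end Pool.Agent.K7.H94.SB
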