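import Pool.Agent.K7.H32.LV.Stm

/-!
# Project LV, jobs AVG and AVZ (helper94)
-/

set_option autoImplicit false

namespace Pool.Agent.K7.H94.LVAVG

open Finset Pool.Agent.H550R3.Jones Pool.Agent.K7.H32.LV
open scoped Real

lemma sn_nonneg (N k h : ℕ) : 0 ≤ sn N k h := abs_nonneg _

/-- the terms of the series in `Mk` -/
noncomputable def tm (N k h : ℕ) : ℝ :=
  if N ∣ h + 1 then 0 else (1 - 1 / (N : ℝ)) ^ (h + 1) / ((h : ℝ) + 1) * (1 / sn N k (h + 1))

lemma r_nonneg {N : ℕ} (hN : 2 ≤ N) : 0 ≤ 1 - 1 / (N : ℝ) := by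
  have h : (2 : ℝ) ≤ N := by exact_mod_cast hN
  rw [sub_nonneg, div_le_one (by linarith)]
  linarith

lemma r_lt_one {N : ℕ} (hN : 2 ≤ N) : 1 - 1 / (N : ℝ) < 1 := by
  have h : (2 : ℝ) ≤ N := by exact_mod_cast hN
  have : 0 < 1 / (N : ℝ) := by positivity
  linarith

lemma tm_nonneg {N : ℕ} (hN : 2 ≤ N) (k h : ℕ) : 0 ≤ tm N k h := by
  unfold tm
  split_ifs
  · exact le_rfl
  · have := r_nonneg hN
    have := sn_nonneg N k (h + 1)
    positivity

lemma log_nonneg' {N : ℕ} (hN : 2 ≤ N) : 0 ≤ Real.log N := Real.log_nonneg (by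
  have : (2 : ℝ) ≤ N := by exact_mod_cast hN
  linarith)

lemma Mk_nonneg {N : ℕ} (hN : 2 ≤ N) (k : ℕ) : 0 ≤ Mk N k := by
  have h1 := log_nonneg' hN
  have h2 : 0 ≤ ∑' h : ℕ, tm N k h := tsum_nonneg fun h => tm_nonneg hN k h
  have h3 : Mk N k = 2 * (1 + Real.log N) + ∑' h : ℕ, tm N k h := rfl
  rw [h3]
  linarith

lemma hasSum_r {N : ℕ} (hN : 2 ≤ N) :
    HasSum (fun h : ℕ => (1 - 1 / (N : ℝ)) ^ (h + 1) / ((h : ℝ) + 1)) (Real.log N) := by
  have h := Real.hasSum_pow_div_log_of_abs_lt_one (x := 1 - 1 / (N : ℝ))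
    (by rw [abs_of_nonneg (r_nonneg hN)]; exact r_lt_one hN)
  have e : -Real.log (1 - (1 - 1 / (N : ℝ))) = Real.log N := by
    rw [sub_sub_cancel, one_div, Real.log_inv, neg_neg]
  rwa [e] at h

theorem t_avg (hS : S_SIN) : S_AVG := by
  classical
  intro N hN
  refine ⟨fun k _ => Mk_nonneg hN k, ?_⟩
  set A := (range N).filter (fun k => k.Coprime N) with hA
  set L := Real.log N with hL
  have hL0 : 0 ≤ L := log_nonneg' hN
  have hN0 : (0 : ℝ) < N := by
    have : 0 < N := by omega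
    exact_mod_cast this
  have hr := hasSum_r hN
  -- bound of one term
  have hone : ∀ k ∈ A, ∀ h : ℕ, tm N k h ≤
      ((1 - 1 / (N : ℝ)) ^ (h + 1) / ((h : ℝ) + 1)) * (N * (1 + L)) := by
    intro k hk h
    have h0 := r_nonneg hN
    unfold tm
    split_ifs with hd
    · positivity
    · refine mul_le_mul_of_nonneg_left ?_ (by positivity)
      refine le_trans ?_ (hS N (h + 1) hN hd)
      exact Finset.single_le_sum (f := fun k => 1 / sn N k (h + 1))
        (fun i _ => by have := sn_nonneg N i (h + 1); positivity) hk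
  have hsum : ∀ k ∈ A, Summable (fun h => tm N k h) := by
    intro k hk
    exact Summable.of_nonneg_of_le (fun h => tm_nonneg hN k h) (hone k hk)
      (hr.summable.mul_right _)
  have hsw : ∑ k ∈ A, ∑' h : ℕ, tm N k h = ∑' h : ℕ, ∑ k ∈ A, tm N k h :=
    (Summable.tsum_finsetSum hsum).symm
  have htot : ∑' h : ℕ, ∑ k ∈ A, tm N k h ≤ L * (N * (1 + L)) := by
    have hle : ∀ h : ℕ, ∑ k ∈ A, tm N k h ≤
        ((1 - 1 / (N : ℝ)) ^ (h + 1) / ((h : ℝ) + 1)) * (N * (1 + L)) := by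
      intro h
      have h0 := r_nonneg hN
      by_cases hd : N ∣ h + 1
      · have : ∑ k ∈ A, tm N k h = 0 := Finset.sum_eq_zero fun k _ => by
          unfold tm; rw [if_pos hd]
        rw [this]
        positivity
      · have : ∑ k ∈ A, tm N k h = ((1 - 1 / (N : ℝ)) ^ (h + 1) / ((h : ℝ) + 1)) *
            ∑ k ∈ A, 1 / sn N k (h + 1) := by
          rw [Finset.mul_sum]
          refine Finset.sum_congr rfl fun k _ => ?_
          unfold tm; rw [if_neg hd]
        rw [this]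
        exact mul_le_mul_of_nonneg_left (hS N (h + 1) hN hd) (by positivity)
    have hsumm : Summable (fun h => ∑ k ∈ A, tm N k h) := summable_sum hsum
    calc ∑' h : ℕ, ∑ k ∈ A, tm N k h ≤
          ∑' h : ℕ, ((1 - 1 / (N : ℝ)) ^ (h + 1) / ((h : ℝ) + 1)) * (N * (1 + L)) :=
          Summable.tsum_le_tsum hle hsumm (hr.summable.mul_right _)
      _ = L * (N * (1 + L)) := by rw [tsum_mul_right, hr.tsum_eq]
  have hcard : (A.card : ℝ) ≤ N := by
    have : A.card ≤ N := by
      calc A.card ≤ (range N).card := Finset.card_filter_le _ _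
        _ = N := card_range N
    exact_mod_cast this
  calc ∑ k ∈ A, Mk N k = ∑ k ∈ A, (2 * (1 + L) + ∑' h : ℕ, tm N k h) := rfl
    _ = A.card * (2 * (1 + L)) + ∑ k ∈ A, ∑' h : ℕ, tm N k h := by
        rw [Finset.sum_add_distrib, Finset.sum_const, nsmul_eq_mul]
    _ ≤ N * (2 * (1 + L)) + L * (N * (1 + L)) := by
        rw [hsw]
        have : (A.card : ℝ) * (2 * (1 + L)) ≤ N * (2 * (1 + L)) :=
          mul_le_mul_of_nonneg_right hcard (by linarith)
        linarith
    _ ≤ 2 * N * (1 + L) ^ 2 := by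
        nlinarith [mul_nonneg hN0.le hL0, mul_nonneg (mul_nonneg hN0.le hL0) hL0]

lemma sn_add (N k h : ℕ) (hN : 2 ≤ N) : sn N (N + k) h = sn N k h := by
  have hN0 : (N : ℝ) ≠ 0 := by
    have : N ≠ 0 := by omega
    exact_mod_cast this
  unfold sn
  have e : π * ((h : ℝ) * ((N + k : ℕ) : ℝ) / N) = π * ((h : ℝ) * k / N) + h * π := by
    push_cast
    field_simp
    ring
  rw [e, Real.sin_add_nat_mul_pi, abs_mul, abs_pow, abs_neg, abs_one, one_pow, one_mul]

lemma Mk_add (N k : ℕ) (hN : 2 ≤ N) : Mk N (N + k) = Mk N k := by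
  unfold Mk
  simp only [sn_add N k _ hN]

lemma br_root (N j : ℕ) (hN : 2 ≤ N) (m : ℕ) :
    ‖br (Complex.exp (2 * π * Complex.I * ((j : ℂ) / ((2 * N : ℕ) : ℂ)))) m‖ = 2 * sn N j m := by
  have hN0 : (N : ℂ) ≠ 0 := by
    have : N ≠ 0 := by omega
    exact_mod_cast this
  set x : ℝ := π * ((m : ℝ) * j / N) with hx
  have h1 : ∀ n : ℤ, (Complex.exp (2 * π * Complex.I * ((j : ℂ) / ((2 * N : ℕ) : ℂ)))) ^ n =
      Complex.exp (n * (2 * π * Complex.I * ((j : ℂ) / ((2 * N : ℕ) : ℂ)))) := fun n =>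
    (Complex.exp_int_mul _ n).symm
  have h2 : br (Complex.exp (2 * π * Complex.I * ((j : ℂ) / ((2 * N : ℕ) : ℂ)))) m =
      2 * Complex.I * Complex.sin (x : ℂ) := by
    unfold br
    rw [h1, h1]
    have e1 : (((m : ℤ) : ℂ)) * (2 * π * Complex.I * ((j : ℂ) / ((2 * N : ℕ) : ℂ))) =
        (x : ℂ) * Complex.I := by
      rw [hx]
      push_cast
      field_simp
    have e2 : (((-(m : ℤ) : ℤ)) : ℂ) * (2 * π * Complex.I * ((j : ℂ) / ((2 * N : ℕ) : ℂ))) =
        -(x : ℂ) * Complex.I := by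
      rw [Int.cast_neg, neg_mul, e1, neg_mul]
    rw [e1, e2, Complex.sin]
    linear_combination (Complex.exp ((x : ℂ) * Complex.I) - Complex.exp (-(x : ℂ) * Complex.I)) *
      Complex.I_mul_I
  rw [h2, norm_mul, norm_mul, Complex.norm_I, ← Complex.ofReal_sin, Complex.norm_real]
  unfold sn
  rw [Real.norm_eq_abs, hx]
  norm_num

theorem t_avz (hF : S_FOU) (hA : S_AVG) : S_AVZ := by
  classical
  intro N hN
  have h2N : 2 * N ≠ 0 := by omega
  have hex : ∀ z : ℂ, z ∈ primitiveRoots (2 * N) ℂ → ∃ j : ℕ, j < 2 * N ∧ j.Coprime (2 * N) ∧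
      Complex.exp (2 * π * Complex.I * ((j : ℂ) / ((2 * N : ℕ) : ℂ))) = z := by
    intro z hz
    rw [mem_primitiveRoots (by omega)] at hz
    obtain ⟨j, hj, hc, he⟩ := (Complex.isPrimitiveRoot_iff z (2 * N) h2N).mp hz
    exact ⟨j, hj, hc, he⟩
  choose! j hj1 hj2 hj3 using hex
  obtain ⟨hA1, hA2⟩ := hA N hN
  have hcop : ∀ z ∈ primitiveRoots (2 * N) ℂ, (j z).Coprime N := fun z hz =>
    Nat.Coprime.coprime_mul_left_right (hj2 z hz)
  refine ⟨fun z => Mk N (j z), fun z hz => ⟨Mk_nonneg hN _, fun n hn => ?_⟩, ?_⟩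
  · have hnorm : ‖brf z n‖ = Fk N (j z) n := by
      unfold brf Fk
      rw [norm_prod]
      refine prod_congr rfl fun i _ => ?_
      have := br_root N (j z) hN (i + 1)
      rw [hj3 z hz] at this
      rw [← this]
      congr 2
    have hpr : IsPrimitiveRoot z (2 * N) := (mem_primitiveRoots (by omega)).mp hz
    have hz0 : z ≠ 0 := hpr.ne_zero h2N
    refine ⟨?_, ?_⟩
    · unfold brf
      refine Finset.prod_ne_zero_iff.mpr fun i hi => ?_
      have hi' : i < n := mem_range.mp hi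
      unfold br
      intro h0
      have h1 : z ^ ((i : ℤ) + 1) = z ^ (-((i : ℤ) + 1)) := sub_eq_zero.mp h0
      have h2 : z ^ (2 * (i + 1)) = 1 := by
        have h3 : z ^ ((i : ℤ) + 1) * z ^ ((i : ℤ) + 1) = 1 := by
          nth_rewrite 2 [h1]
          rw [← zpow_add₀ hz0, add_neg_cancel, zpow_zero]
        have h4 : ((2 * (i + 1) : ℕ) : ℤ) = ((i : ℤ) + 1) + ((i : ℤ) + 1) := by push_cast; ring
        rw [← zpow_natCast, h4, zpow_add₀ hz0]
        exact h3
      have h5 := Nat.le_of_dvd (by omega) (hpr.dvd_of_pow_eq_one _ h2)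
      omega
    · rw [hnorm]
      exact hF N (j z) hN (hcop z hz) n hn
  · have hinj : Set.InjOn j (primitiveRoots (2 * N) ℂ : Set ℂ) := by
      intro x hx y hy hxy
      rw [← hj3 x hx, ← hj3 y hy, hxy]
    calc ∑ z ∈ primitiveRoots (2 * N) ℂ, Mk N (j z)
        = ∑ i ∈ (primitiveRoots (2 * N) ℂ).image j, Mk N i := (Finset.sum_image hinj).symm
      _ ≤ ∑ i ∈ (range (N + N)).filter (fun k => k.Coprime N), Mk N i := by
          refine Finset.sum_le_sum_of_subset_of_nonneg ?_ (fun i _ _ => Mk_nonneg hN i)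
          intro i hi
          obtain ⟨z, hz, rfl⟩ := Finset.mem_image.mp hi
          exact Finset.mem_filter.mpr ⟨Finset.mem_range.mpr (by have := hj1 z hz; omega), hcop z hz⟩
      _ = ∑ i ∈ (range N).filter (fun k => k.Coprime N), Mk N i +
          ∑ i ∈ (range N).filter (fun k => k.Coprime N), Mk N i := by
          rw [Finset.sum_filter, Finset.sum_range_add, Finset.sum_filter]
          congr 1
          refine Finset.sum_congr rfl fun i _ => ?_
          rw [Mk_add N i hN]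
          have : (N + i).Coprime N ↔ i.Coprime N := by
            unfold Nat.Coprime
            rw [Nat.gcd_comm, Nat.gcd_self_add_right, Nat.gcd_comm]
          simp only [this]
      _ ≤ 4 * N * (1 + Real.log N) ^ 2 := by linarith

end Pool.Agent.K7.H94.LVAVG
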