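import Pool.Agent.K7.H32.LV.Stm

/-!
# Project LV, job ENT (helper94)
-/

set_option autoImplicit false

namespace Pool.Agent.K7.H94.LVENT

open Finset Pool.Agent.H550R3.Jones Pool.Agent.K7.H32.LV

lemma brf_split (z : ℂ) (c : ℕ) : ∀ n : ℕ, n ≤ c →
    brf z c = brf z (c - n) * ∏ t ∈ range n, br z ((c : ℤ) - t) := by
  intro n
  induction n with
  | zero => intro _; simp
  | succ n ih =>
    intro h
    rw [ih (by omega), prod_range_succ]
    obtain ⟨m, hm⟩ : ∃ m, c - n = m + 1 := ⟨c - n - 1, by omega⟩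
    have h2 : c - (n + 1) = m := by omega
    have h3 : (c : ℤ) - n = (m : ℤ) + 1 := by omega
    rw [hm, h2, h3]
    have h4 : brf z (m + 1) = brf z m * br z ((m : ℤ) + 1) := by
      unfold brf
      rw [prod_range_succ]
    rw [h4]
    ring

lemma norm_br_sub (z : ℂ) (N : ℕ) (hz0 : z ≠ 0) (hz : z ^ (2 * N) = 1) (hn : ‖z‖ = 1) (x : ℤ) :
    ‖br z ((N : ℤ) - x)‖ = ‖br z x‖ := by
  have h1 : z ^ (N : ℤ) * z ^ (N : ℤ) = 1 := by
    rw [← zpow_add₀ hz0, ← two_mul]
    have : (2 * (N : ℤ)) = ((2 * N : ℕ) : ℤ) := by push_cast; ring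
    rw [this, zpow_natCast, hz]
  have h2 : z ^ (-(N : ℤ)) = z ^ (N : ℤ) := by
    rw [zpow_neg]
    exact inv_eq_of_mul_eq_one_left h1
  have h3 : br z ((N : ℤ) - x) = -(z ^ (N : ℤ)) * br z x := by
    unfold br
    rw [zpow_sub₀ hz0, show -((N : ℤ) - x) = -(N : ℤ) + x by ring, zpow_add₀ hz0, h2,
      zpow_neg z x]
    field_simp
    ring
  rw [h3, norm_mul, norm_neg, norm_zpow, hn, one_zpow, one_mul]

lemma core (N : ℕ) (z : ℂ) (M : ℝ) (hN : 1 ≤ N) (hz : z ^ (2 * N) = 1)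
    (h : ∀ k : ℕ, k < N → brf z k ≠ 0 ∧ |Real.log ‖brf z k‖| ≤ M) (a b c n : ℕ) (ha : a < N)
    (hb : b < N) (hn : n < N) (hc : c < N) (hnc : n ≤ c) :
    ‖brf z a / (brf z b * brf z n)‖ * ‖∏ t ∈ range n, br z ((N : ℤ) - (c : ℕ) + t)‖ ≤
      Real.exp (5 * M) := by
  have hz1 : ‖z‖ = 1 := Complex.norm_eq_one_of_pow_eq_one hz (by omega)
  have hz0 : z ≠ 0 := by
    intro h0
    rw [h0, norm_zero] at hz1
    norm_num at hz1
  have hup : ∀ k, k < N → ‖brf z k‖ ≤ Real.exp M := by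
    intro k hk
    have h1 := (h k hk).2
    have h2 : 0 < ‖brf z k‖ := norm_pos_iff.mpr (h k hk).1
    rw [← Real.exp_log h2]
    exact Real.exp_le_exp.mpr ((abs_le.mp h1).2)
  have hlow : ∀ k, k < N → Real.exp (-M) ≤ ‖brf z k‖ := by
    intro k hk
    have h1 := (h k hk).2
    have h2 : 0 < ‖brf z k‖ := norm_pos_iff.mpr (h k hk).1
    rw [← Real.exp_log h2]
    exact Real.exp_le_exp.mpr ((abs_le.mp h1).1)
  have hprod : ‖∏ t ∈ range n, br z ((N : ℤ) - (c : ℕ) + t)‖ =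
      ‖brf z c‖ / ‖brf z (c - n)‖ := by
    have h1 : ‖∏ t ∈ range n, br z ((N : ℤ) - (c : ℕ) + t)‖ =
        ‖∏ t ∈ range n, br z ((c : ℤ) - t)‖ := by
      rw [norm_prod, norm_prod]
      refine prod_congr rfl fun t _ => ?_
      rw [← norm_br_sub z N hz0 hz hz1 ((c : ℤ) - t)]
      congr 2
      ring
    rw [h1, brf_split z c n hnc, norm_mul, mul_div_cancel_left₀]
    exact norm_ne_zero_iff.mpr (h (c - n) (by omega)).1
  rw [hprod, norm_div, norm_mul]
  have e1 : ‖brf z a‖ / (‖brf z b‖ * ‖brf z n‖) ≤ Real.exp M / (Real.exp (-M) * Real.exp (-M)) := by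
    refine div_le_div₀ (Real.exp_pos _).le (hup a ha) (by positivity) ?_
    exact mul_le_mul (hlow b hb) (hlow n hn) (Real.exp_pos _).le (norm_nonneg _)
  have e2 : ‖brf z c‖ / ‖brf z (c - n)‖ ≤ Real.exp M / Real.exp (-M) :=
    div_le_div₀ (Real.exp_pos _).le (hup c hc) (Real.exp_pos _) (hlow _ (by omega))
  calc ‖brf z a‖ / (‖brf z b‖ * ‖brf z n‖) * (‖brf z c‖ / ‖brf z (c - n)‖) ≤
        (Real.exp M / (Real.exp (-M) * Real.exp (-M))) * (Real.exp M / Real.exp (-M)) :=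
        mul_le_mul e1 e2 (by positivity) (by positivity)
    _ = Real.exp (5 * M) := by
        rw [← Real.exp_add, ← Real.exp_sub, ← Real.exp_sub, ← Real.exp_add]
        congr 1; ring

theorem t : S_ENT := by
  intro N z M hN hz h p q
  have hz1 : ‖z‖ = 1 := Complex.norm_eq_one_of_pow_eq_one hz (by omega)
  have hp1 := p.1.2
  have hp2 := p.2.2
  have hq1 := q.1.2
  have hq2 := q.2.2
  constructor
  · unfold crossP
    split_ifs with hc
    · obtain ⟨h1, h2⟩ := hc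
      rw [norm_mul, norm_mul, norm_mul, norm_zpow, norm_pow, hz1, one_zpow, one_pow, one_mul,
        one_mul]
      exact core N z M hN hz h _ _ _ _ hp1 hq2 (by omega) hq1 (by omega)
    · rw [norm_zero]; exact (Real.exp_pos _).le
  · unfold crossN
    split_ifs with hc
    · obtain ⟨h1, h2⟩ := hc
      rw [norm_mul, norm_mul, norm_div, norm_mul, norm_pow, norm_neg, norm_one, one_pow, norm_zpow,
        norm_pow, hz1, one_zpow, one_pow, one_mul, div_one, one_mul]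
      exact core N z M hN hz h _ _ _ _ hp2 hq1 (by omega) hq2 (by omega)
    · rw [norm_zero]; exact (Real.exp_pos _).le

end Pool.Agent.K7.H94.LVENT
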