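import Pool.Agent.K7.H84.GG.Stm

set_option autoImplicit false

namespace Pool.Agent.K7.H94.GGWEISC

open Finset DC813 Pool.Agent.K7.H84.GG

variable {α : Type} [DecidableEq α]

lemma fl_sub {r : Finset α → ℕ} {E F : Finset α} (h : F ∈ fl r E) : F ⊆ E :=
  mem_powerset.1 (mem_filter.1 h).1

lemma fl_lt {r : Finset α → ℕ} {E F : Finset α} (h : F ∈ fl r E) :
    ∀ e ∈ E, e ∉ F → r F < r (insert e F) := (mem_filter.1 h).2

/-- rank in a contraction -/
lemma con_sdiff (r : Finset α → ℕ) {X F : Finset α} (h : X ⊆ F) :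
    con r X (F \ X) = r F - r X := by
  unfold con
  rw [sdiff_union_of_subset h]

theorem weisC (hW : StWeis) (hC : StCON) (hFL : StFLC) : StWeisC := by
  intro α _ r E F y hr hF hyE hyF
  have hFE := fl_sub hF
  obtain ⟨h1, -, -⟩ := hFL α r E F hr hF
  have h0 : 0 < con r F {y} := by
    have h2 := fl_lt hF y hyE hyF
    have h3 : ({y} : Finset α) ∪ F = insert y F := (insert_eq y F).symm
    unfold con
    rw [h3]
    omega
  have h4 := hW α (con r F) (E \ F) y (hC α r F hr) (mem_sdiff.2 ⟨hyE, hyF⟩) h0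
  have h5 : mc r E F = mu (con r F) (E \ F) := rfl
  rw [h5, ← h4]
  unfold hy
  symm
  rw [sum_filter, h1 (fun H => if con r F H + 1 = con r F (E \ F) ∧ y ∉ H then mu (con r F) H else 0),
    sum_filter, sum_filter]
  refine sum_congr rfl fun K _ => ?_
  by_cases hFK : F ⊆ K
  · rw [if_pos hFK]
    have h6 : r F ≤ r K := hr.mono _ _ hFK
    have h7 : r F ≤ r E := hr.mono _ _ hFE
    have h8 : (con r F (K \ F) + 1 = con r F (E \ F) ∧ y ∉ K \ F) ↔
        (r K + 1 = r E ∧ F ⊆ K ∧ y ∉ K) := by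
      rw [con_sdiff r hFK, con_sdiff r hFE, mem_sdiff]
      constructor
      · rintro ⟨h9, h10⟩
        exact ⟨by omega, hFK, fun h => h10 ⟨h, hyF⟩⟩
      · rintro ⟨h9, -, h10⟩
        exact ⟨by omega, fun h => h10 h.1⟩
    simp only [h8]
    rfl
  · rw [if_neg hFK, if_neg (fun h => hFK h.2.1)]

theorem mcNN (hC : StCON) (hFL : StFLC) (hM : StMuNN) : StMcNN := by
  intro α _ r E F hr hF
  exact hM α (con r F) (E \ F) (hC α r F hr) (hFL α r E F hr hF).2.2

end Pool.Agent.K7.H94.GGWEISC
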