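import Pool.Agent.K7.H50.OG.Defs

/-!
# Project OG (MP_23a060_co), job NEC (helper94)
-/

set_option autoImplicit false

namespace Pool.Agent.K7.H94.OG

open Pool.Agent.K7.H50.OG

lemma con_mir {k : ℕ} {E : Gr} (h : Con k E) : Con k (fun i j => E (k + 1 - j) (k + 1 - i)) := by
  intro S h1 h2
  obtain ⟨x, hx1, hx2, hx3⟩ := h1
  obtain ⟨y, hy1, hy2, hy3⟩ := h2
  obtain ⟨i, j, hi, hij, hj, hE, hS⟩ := h (fun x => S (k + 1 - x))
    ⟨k + 1 - x, by omega, by omega, by
      have : k + 1 - (k + 1 - x) = x := by omega
      simpa only [this] using hx3⟩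
    ⟨k + 1 - y, by omega, by omega, by
      have : k + 1 - (k + 1 - y) = y := by omega
      simpa only [this] using hy3⟩
  refine ⟨k + 1 - j, k + 1 - i, by omega, by omega, by omega, ?_, ?_⟩
  · have e1 : k + 1 - (k + 1 - i) = i := by omega
    have e2 : k + 1 - (k + 1 - j) = j := by omega
    simp only [e1, e2]
    exact hE
  · tauto

lemma exists_right {k : ℕ} {E : Gr} (hk : 2 ≤ k) (h : Con k E) :
    ∃ j, 1 < j ∧ j ≤ k ∧ E 1 j := by
  obtain ⟨i, j, hi, hij, hj, hE, hS⟩ := h (fun x => x = 1) ⟨1, le_rfl, by omega, rfl⟩
    ⟨2, by omega, hk, by omega⟩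
  have hi1 : i = 1 := by
    by_contra hne
    have : j = 1 := by tauto
    omega
  subst hi1
  exact ⟨j, hij, hj, hE⟩

lemma exists_left {k : ℕ} {E : Gr} (hk : 2 ≤ k) (h : Con k E) :
    ∃ i, 1 ≤ i ∧ i < k ∧ E i k := by
  obtain ⟨i, j, hi, hij, hj, hE, hS⟩ := h (fun x => x = k) ⟨k, by omega, le_rfl, rfl⟩
    ⟨1, le_rfl, by omega, by omega⟩
  have hj1 : j = k := by
    by_contra hne
    have : i = k := by tauto
    omega
  subst hj1
  exact ⟨i, hi, hij, hE⟩

theorem nec (hMir : StMir) (hA : StA) (hB : StB) (hC : StC) (hE : StE) (hF : StF)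
    (hM23 : StM23) (hM1 : StM1) (hM0 : StM0) : StNec := by
  classical
  intro k E hk hcon hJF
  by_cases h1k : E 1 k
  · -- case II
    by_cases hb : ∃ b, 1 < b ∧ b < k ∧ E 1 b
    · by_cases ha : ∃ a, 1 < a ∧ a < k ∧ E a k
      · obtain ⟨b, hb1, hbk, hEb⟩ := hb
        obtain ⟨a, ha1, hak, hEa⟩ := ha
        left
        rcases lt_trichotomy a b with h | h | h
        · exact hE k E a b hcon ha1 h hbk h1k hEb hEa
        · subst h
          exact hA k E a hcon ha1 hak hEb hEa ⟨1, k, le_rfl, ha1, hak, le_rfl, h1k⟩
        · exact hB k E a b hcon hJF hb1 h hak hEb hEa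
      · -- N(k) = {1}: mirror
        push Not at ha
        by_cases huv : ∃ u v, 1 < u ∧ u < v ∧ v < k ∧ E u v
        · obtain ⟨u, v, hu, huv, hv, hEuv⟩ := huv
          left
          refine hMir k E (hC k _ (k + 1 - v) (k + 1 - u) (con_mir hcon) ?_ ?_ (by omega)
            (by omega) (by omega) ?_)
          · show E (k + 1 - k) (k + 1 - 1)
            rw [show k + 1 - k = 1 by omega, show k + 1 - 1 = k by omega]
            exact h1k
          · intro j hj1 hjk
            show ¬ E (k + 1 - j) (k + 1 - 1)
            rw [show k + 1 - 1 = k by omega]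
            exact ha (k + 1 - j) (by omega) (by omega)
          · show E (k + 1 - (k + 1 - u)) (k + 1 - (k + 1 - v))
            rw [show k + 1 - (k + 1 - u) = u by omega, show k + 1 - (k + 1 - v) = v by omega]
            exact hEuv
        · push Not at huv
          right
          refine ⟨1, le_rfl, by omega, fun i j hi hij hj hEij => ?_⟩
          right
          refine ⟨?_, by omega⟩
          by_contra hne
          have hi1 : 1 < i := by omega
          rcases Nat.lt_or_ge j k with h | h
          · exact huv i j hi1 hij h hEij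
          · have : j = k := by omega
            subst this
            exact ha i hi1 hij hEij
    · -- N(1) = {k}
      push Not at hb
      by_cases huv : ∃ u v, 1 < u ∧ u < v ∧ v < k ∧ E u v
      · obtain ⟨u, v, hu, huv, hv, hEuv⟩ := huv
        left
        exact hC k E u v hcon h1k (fun j hj hjk => hb j hj hjk) hu huv hv hEuv
      · push Not at huv
        right
        refine ⟨k - 1, by omega, by omega, fun i j hi hij hj hEij => ?_⟩
        left
        refine ⟨?_, by omega⟩
        by_contra hne
        have hjk : j < k := by omega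
        rcases Nat.lt_or_ge 1 i with h | h
        · exact huv i j h hij hjk hEij
        · have : i = 1 := by omega
          subst this
          exact hb j hij hjk hEij
  · -- case I
    by_cases hle : ∃ a b, 1 < b ∧ b ≤ a ∧ a < k ∧ E 1 b ∧ E a k
    · obtain ⟨a, b, hb1, hba, hak, hEb, hEa⟩ := hle
      left
      rcases Nat.lt_or_ge b a with h | h
      · exact hB k E a b hcon hJF hb1 h hak hEb hEa
      · have : a = b := by omega
        subst this
        exact hA k E a hcon hb1 hak hEb hEa (hJF a hb1 hak)
    · push Not at hle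
      -- the smallest neighbour of 1 and the largest neighbour of k
      have hexb : ∃ b, 1 < b ∧ b ≤ k ∧ E 1 b := exists_right hk hcon
      have hexa : ∃ a, 1 ≤ a ∧ a < k ∧ E a k := exists_left hk hcon
      obtain ⟨b, ⟨hb1, hbk, hEb⟩, hbmin⟩ :
          ∃ b, (1 < b ∧ b ≤ k ∧ E 1 b) ∧ ∀ j, 1 < j → j ≤ k → E 1 j → b ≤ j :=
        ⟨Nat.find hexb, Nat.find_spec hexb, fun j h1 h2 h3 => Nat.find_min' hexb ⟨h1, h2, h3⟩⟩
      have hexa' : ∃ t, 1 ≤ k - t ∧ k - t < k ∧ E (k - t) k := by
        obtain ⟨a, h1, h2, h3⟩ := hexa
        exact ⟨k - a, by omega, by omega, by rwa [show k - (k - a) = a by omega]⟩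
      obtain ⟨a, ⟨ha1, hak, hEa⟩, hamax⟩ :
          ∃ a, (1 ≤ a ∧ a < k ∧ E a k) ∧ ∀ i, 1 ≤ i → i < k → E i k → i ≤ a := by
        refine ⟨k - Nat.find hexa', Nat.find_spec hexa', fun i h1 h2 h3 => ?_⟩
        have := Nat.find_min' hexa' (m := k - i)
          ⟨by omega, by omega, by rwa [show k - (k - i) = i by omega]⟩
        omega
      have hbk' : b < k := by
        refine lt_of_le_of_ne hbk fun he => ?_
        subst he
        exact h1k hEb
      have ha1' : 1 < a := by
        refine lt_of_le_of_ne ha1 fun he => ?_
        subst he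
        exact h1k hEa
      have hab : a < b := by
        by_contra hcon'
        exact hle a b hb1 (by omega) hak hEb hEa
      by_cases hka : ∀ i, 1 ≤ i → i < k → E i k → i = a
      · -- k is a leaf
        have hLf : Lf k E a b := ⟨hcon, ha1', hab, hbk', hEb, hEa, hka, hbmin⟩
        by_cases h1b : ∀ j, 1 < j → j ≤ k → E 1 j → j = b
        · have hLf2 : Lf2 k E a b := ⟨hLf, h1b⟩
          rcases Nat.lt_or_ge (a + 1) b with h | h
          · exact Or.inl (hM1 k E a b hLf2 (by omega))
          · have hb' : b = a + 1 := by omega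
            subst hb'
            rcases hM0 k E a hLf2 with h' | h'
            · exact Or.inl h'
            · exact Or.inr ⟨a, by omega, hak, h'⟩
        · push Not at h1b
          obtain ⟨m, hm1, hmk, hEm, hmb⟩ := h1b
          have hmk' : m < k := by
            refine lt_of_le_of_ne hmk fun he => ?_
            subst he
            exact h1k hEm
          exact Or.inl (hM23 k E a b b m hLf hb1 hbk' hm1 hmk' hEb hEm (Ne.symm hmb))
      · push Not at hka
        obtain ⟨a₁, ha₁1, ha₁k, hEa₁, ha₁a⟩ := hka
        have ha₁1' : 1 < a₁ := by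
          refine lt_of_le_of_ne ha₁1 fun he => ?_
          subst he
          exact h1k hEa₁
        have ha₁lt : a₁ < a := lt_of_le_of_ne (hamax a₁ ha₁1 ha₁k hEa₁) ha₁a
        left
        by_cases h1b : ∀ j, 1 < j → j ≤ k → E 1 j → j = b
        · -- 1 is a leaf: mirror
          refine hMir k E (hM23 k _ (k + 1 - b) (k + 1 - a) (k + 1 - a) (k + 1 - a₁)
            ⟨con_mir hcon, by omega, by omega, by omega, ?_, ?_, ?_, ?_⟩ (by omega) (by omega)
            (by omega) (by omega) ?_ ?_ (by omega))
          · show E (k + 1 - (k + 1 - a)) (k + 1 - 1)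
            rw [show k + 1 - (k + 1 - a) = a by omega, show k + 1 - 1 = k by omega]
            exact hEa
          · show E (k + 1 - k) (k + 1 - (k + 1 - b))
            rw [show k + 1 - (k + 1 - b) = b by omega, show k + 1 - k = 1 by omega]
            exact hEb
          · intro i hi hik hEi
            have hEi' : E 1 (k + 1 - i) := by
              have := hEi
              simp only [show k + 1 - k = 1 by omega] at this
              exact this
            have := h1b (k + 1 - i) (by omega) (by omega) hEi'
            omega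
          · intro j hj hjk hEj
            have hEj' : E (k + 1 - j) k := by
              have := hEj
              simp only [show k + 1 - 1 = k by omega] at this
              exact this
            have := hamax (k + 1 - j) (by omega) (by omega) hEj'
            omega
          · show E (k + 1 - (k + 1 - a)) (k + 1 - 1)
            rw [show k + 1 - (k + 1 - a) = a by omega, show k + 1 - 1 = k by omega]
            exact hEa
          · show E (k + 1 - (k + 1 - a₁)) (k + 1 - 1)
            rw [show k + 1 - (k + 1 - a₁) = a₁ by omega, show k + 1 - 1 = k by omega]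
            exact hEa₁
        · push Not at h1b
          obtain ⟨m, hm1, hmk, hEm, hmb⟩ := h1b
          have hmk' : m < k := by
            refine lt_of_le_of_ne hmk fun he => ?_
            subst he
            exact h1k hEm
          have hbm : b < m := lt_of_le_of_ne (hbmin m hm1 hmk hEm) (Ne.symm hmb)
          exact hF k E a a₁ b m hcon h1k ha₁1' ha₁lt hab hbm hmk' hEb hEm hEa hEa₁ hamax hbmin

end Pool.Agent.K7.H94.OG
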