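import Pool.Agent.K7.H16.SG.Stm

/-! # Project SG, job F1 -/

set_option autoImplicit false

open Finset

namespace Pool.Agent.K7.H94.SGF1

open Pool.Agent.K7.H16.SG

theorem t (hS : StS) (hW : StW) : StF1 := by
  intro τ m hτ hm
  have hmem : ∀ (w v : List ℕ),
      v ∈ (words w.toFinset).filter (fun v => s v = w) ↔ v.Nodup ∧ s v = w := by
    intro w v
    rw [Finset.mem_filter, hW.1]
    constructor
    · rintro ⟨⟨h1, _⟩, h2⟩
      exact ⟨h1, h2⟩
    · rintro ⟨h1, h2⟩
      refine ⟨⟨h1, ?_⟩, h2⟩
      have h3 := hS.2.2 v h1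
      rw [h2] at h3
      exact (List.toFinset_eq_of_perm _ _ h3).symm
  have hmτ : m ∉ τ := fun h => lt_irrefl _ (hm m h)
  symm
  unfold f
  simp_rw [← Finset.card_product]
  rw [← Finset.card_sigma]
  refine Finset.card_bij (fun x _ => x.2.1 ++ m :: x.2.2) ?_ ?_ ?_
  · rintro ⟨i, L, R⟩ hx
    rw [Finset.mem_sigma, Finset.mem_product] at hx
    obtain ⟨hi, hL, hR⟩ := hx
    rw [hmem] at hL hR ⊢
    have pL : (τ.take i).Perm L := by
      have := hS.2.2 L hL.1
      rwa [hL.2] at this
    have pR : (τ.drop i).Perm R := by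
      have := hS.2.2 R hR.1
      rwa [hR.2] at this
    refine ⟨?_, ?_⟩
    · have p1 : (τ.take i ++ m :: τ.drop i).Perm (L ++ m :: R) := pL.append (pR.cons m)
      have p2 : (τ.take i ++ m :: τ.drop i).Perm (m :: (τ.take i ++ τ.drop i)) := List.perm_middle
      rw [List.take_append_drop] at p2
      exact (p2.symm.trans p1).nodup_iff.1 (List.nodup_cons.2 ⟨hmτ, hτ⟩)
    · show s (L ++ m :: R) = τ ++ [m]
      rw [hS.2.1 L R m, hL.2, hR.2, List.take_append_drop]
      intro a ha
      rw [List.mem_append] at ha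
      rcases ha with ha | ha
      · exact hm a (List.mem_of_mem_take (pL.mem_iff.2 ha))
      · exact hm a (List.mem_of_mem_drop (pR.mem_iff.2 ha))
  · rintro ⟨i, L, R⟩ hx ⟨i', L', R'⟩ hx' h
    rw [Finset.mem_sigma, Finset.mem_product] at hx hx'
    obtain ⟨hi, hL, hR⟩ := hx
    obtain ⟨hi', hL', hR'⟩ := hx'
    rw [hmem] at hL hR hL' hR'
    rw [Finset.mem_range] at hi hi'
    have key : ∀ (j : ℕ) (K : List ℕ), j < τ.length + 1 → K.Nodup → s K = τ.take j →
        K.length = j ∧ m ∉ K := by
      intro j K hj h1 h2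
      have p := hS.2.2 K h1
      rw [h2] at p
      refine ⟨?_, fun h => hmτ (List.mem_of_mem_take (p.mem_iff.2 h))⟩
      rw [← p.length_eq, List.length_take]
      omega
    have kL := key i L hi hL.1 hL.2
    have kL' := key i' L' hi' hL'.1 hL'.2
    have kR' : m ∉ R' := by
      have p := hS.2.2 R' hR'.1
      rw [hR'.2] at p
      exact fun h => hmτ (List.mem_of_mem_drop (p.mem_iff.2 h))
    have kR : m ∉ R := by
      have p := hS.2.2 R hR.1
      rw [hR.2] at p
      exact fun h => hmτ (List.mem_of_mem_drop (p.mem_iff.2 h))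
    have h' : L ++ m :: R = L' ++ m :: R' := h
    have h3 := (List.append_cons_inj_of_notMem kL.2 kR).1 h'
    obtain ⟨rfl, -, rfl⟩ := h3
    have : i = i' := kL.1.symm.trans kL'.1
    subst this
    rfl
  · intro v hv
    rw [hmem] at hv
    obtain ⟨h1, h2⟩ := hv
    have p := hS.2.2 v h1
    have hmv : m ∈ v := by
      rw [← p.mem_iff, h2]
      simp
    obtain ⟨L, R, rfl⟩ := List.append_of_mem hmv
    have hnd : (m :: (L ++ R)).Nodup := (List.perm_middle (a := m) (l₁ := L) (l₂ := R)).nodup_iff.1 h1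
    rw [List.nodup_cons] at hnd
    have hlt : ∀ a ∈ L ++ R, a < m := by
      intro a ha
      have h3 : a ∈ L ++ m :: R := by
        rw [List.mem_append] at ha ⊢
        rcases ha with ha | ha
        · exact Or.inl ha
        · exact Or.inr (List.mem_cons_of_mem _ ha)
      rw [← p.mem_iff, h2, List.mem_append, List.mem_singleton] at h3
      rcases h3 with h3 | h3
      · exact hm a h3
      · subst h3
        exact absurd ha hnd.1
    have hLn : L.Nodup := (List.nodup_append.1 hnd.2).1
    have hRn : R.Nodup := (List.nodup_append.1 hnd.2).2.1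
    rw [hS.2.1 L R m hlt] at h2
    have h4 : s L ++ s R = τ := List.append_cancel_right h2
    have hlen : (s L).length = L.length := (hS.2.2 L hLn).length_eq
    refine ⟨⟨L.length, L, R⟩, ?_, rfl⟩
    rw [Finset.mem_sigma, Finset.mem_product]
    refine ⟨?_, ?_, ?_⟩
    · rw [Finset.mem_range, ← h4, List.length_append, hlen]
      show L.length < L.length + (s R).length + 1
      omega
    · rw [hmem]
      refine ⟨hLn, ?_⟩
      show s L = τ.take L.length
      rw [← h4, ← hlen, List.take_left]
    · rw [hmem]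
      refine ⟨hRn, ?_⟩
      show s R = τ.drop L.length
      rw [← h4, ← hlen, List.drop_left]

end Pool.Agent.K7.H94.SGF1
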